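import Mathlib

/-!
# Geometric graphs and lines: definitions
-/

set_option autoImplicit false

namespace Pool.Agent.Y78.LX

open Finset

/-- A geometric graph on `n` points: `n` distinct points of the plane, no three of them collinear,
and a set of pairs of points (the edges; the pair with smaller and larger index `i < j` stands for
the segment from `pt i` to `pt j`). -/
structure GeomGraph (n : ℕ) where
  /-- the points -/
  pt : Fin n → ℝ × ℝ
  inj : Function.Injective pt
  noThree : ∀ i j k, i ≠ j → j ≠ k → i ≠ k → ¬ Collinear ℝ {pt i, pt j, pt k}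
  /-- the edges -/
  edges : Finset (Fin n × Fin n)
  lt : ∀ e ∈ edges, e.1 < e.2

/-- The straight lines of the plane. -/
def IsLine (L : Set (ℝ × ℝ)) : Prop :=
  ∃ a b c : ℝ, (a ≠ 0 ∨ b ≠ 0) ∧ L = {w | a * w.1 + b * w.2 = c}

open Classical in
/-- The number of edges whose relative interior meets `L`. -/
noncomputable def met {n : ℕ} (G : GeomGraph n) (L : Set (ℝ × ℝ)) : ℕ :=
  (G.edges.filter fun e => (openSegment ℝ (G.pt e.1) (G.pt e.2) ∩ L).Nonempty).card

/-- `f n k`: the least `e` such that every geometric graph on `n` points with at least `e` edges has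
a line that meets at least `k` edges. -/
noncomputable def f (n k : ℕ) : ℕ :=
  sInf {e | ∀ G : GeomGraph n, e ≤ G.edges.card → ∃ L, IsLine L ∧ k ≤ met G L}

/-- The determinant of `q - p` and `w - p`. -/
def det (p q w : ℝ × ℝ) : ℝ := (q.1 - p.1) * (w.2 - p.2) - (q.2 - p.2) * (w.1 - p.1)

theorem collinear_of_det {p q w : ℝ × ℝ} (hpq : p ≠ q) (h : det p q w = 0) :
    Collinear ℝ {p, q, w} := by
  rw [collinear_iff_of_mem (p₀ := p) (by simp)]
  refine ⟨q - p, ?_⟩
  unfold det at h
  intro z hz
  simp only [Set.mem_insert_iff, Set.mem_singleton_iff] at hz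
  rcases hz with rfl | rfl | rfl
  · exact ⟨0, by simp⟩
  · exact ⟨1, by simp⟩
  · by_cases h1 : q.1 = p.1
    · have h2 : q.2 - p.2 ≠ 0 := by
        intro h3
        apply hpq
        ext
        · exact h1.symm
        · linarith
      refine ⟨(z.2 - p.2) / (q.2 - p.2), ?_⟩
      ext
      · simp only [vadd_eq_add, Prod.fst_add, Prod.smul_fst, Prod.fst_sub, smul_eq_mul]
        rw [h1] at h ⊢
        have h3 : z.1 - p.1 = 0 := by
          have h4 : (q.2 - p.2) * (z.1 - p.1) = 0 := by linarith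
          exact (mul_eq_zero.1 h4).resolve_left h2
        simp; linarith
      · simp only [vadd_eq_add, Prod.snd_add, Prod.smul_snd, Prod.snd_sub, smul_eq_mul]
        field_simp; ring
    · have h2 : q.1 - p.1 ≠ 0 := sub_ne_zero.2 h1
      refine ⟨(z.1 - p.1) / (q.1 - p.1), ?_⟩
      ext
      · simp only [vadd_eq_add, Prod.fst_add, Prod.smul_fst, Prod.fst_sub, smul_eq_mul]
        field_simp; ring
      · simp only [vadd_eq_add, Prod.snd_add, Prod.smul_snd, Prod.snd_sub, smul_eq_mul]
        have h3 : (z.1 - p.1) / (q.1 - p.1) * (q.2 - p.2) = z.2 - p.2 := by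
          field_simp; linarith
        rw [h3]; ring

theorem det_of_collinear {p q w : ℝ × ℝ} (h : Collinear ℝ {p, q, w}) : det p q w = 0 := by
  rw [collinear_iff_of_mem (p₀ := p) (by simp)] at h
  obtain ⟨v, hv⟩ := h
  obtain ⟨s, hs⟩ := hv q (by simp)
  obtain ⟨t, ht⟩ := hv w (by simp)
  unfold det
  rw [hs, ht]
  simp only [vadd_eq_add, Prod.fst_add, Prod.smul_fst, smul_eq_mul, Prod.snd_add, Prod.smul_snd]
  ring

/-- Edges with end points strictly on different sides of a line meet the line. -/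
theorem card_le_met {n : ℕ} (G : GeomGraph n) (a b c : ℝ)
    (T : Finset (Fin n × Fin n)) (hT : T ⊆ G.edges)
    (h : ∀ e ∈ T, (a * (G.pt e.1).1 + b * (G.pt e.1).2 < c ∧ c < a * (G.pt e.2).1 + b * (G.pt e.2).2) ∨
      (a * (G.pt e.2).1 + b * (G.pt e.2).2 < c ∧ c < a * (G.pt e.1).1 + b * (G.pt e.1).2)) :
    T.card ≤ met G {w | a * w.1 + b * w.2 = c} := by
  classical
  unfold met
  apply Finset.card_le_card
  intro e he
  rw [Finset.mem_filter]
  refine ⟨hT he, ?_⟩
  set u := G.pt e.1
  set v := G.pt e.2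
  set x := a * u.1 + b * u.2 with hx
  set y := a * v.1 + b * v.2 with hy
  have hxy : x ≠ y := by
    rcases h e he with ⟨h1, h2⟩ | ⟨h1, h2⟩
    · exact (h1.trans h2).ne
    · exact (h1.trans h2).ne'
  set t := (c - x) / (y - x) with ht
  have hyx : y - x ≠ 0 := sub_ne_zero.2 hxy.symm
  have ht0 : 0 < t ∧ t < 1 := by
    rcases h e he with ⟨h1, h2⟩ | ⟨h1, h2⟩
    · have h3 : 0 < y - x := by linarith
      refine ⟨div_pos (by linarith) h3, ?_⟩
      rw [ht, div_lt_one h3]; linarith
    · have h3 : y - x < 0 := by linarith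
      refine ⟨div_pos_of_neg_of_neg (by linarith) h3, ?_⟩
      rw [ht, div_lt_one_of_neg h3]; linarith
  refine ⟨(1 - t) • u + t • v, ⟨1 - t, t, by linarith, ht0.1, by ring, rfl⟩, ?_⟩
  simp only [Set.mem_ofPred_eq, Prod.fst_add, Prod.smul_fst, smul_eq_mul, Prod.snd_add,
    Prod.smul_snd]
  have h5 : a * ((1 - t) * u.1 + t * v.1) + b * ((1 - t) * u.2 + t * v.2) = x + t * (y - x) := by
    rw [hx, hy]; ring
  rw [h5, ht]
  field_simp
  ring

end Pool.Agent.Y78.LX
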