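import Pool.Agent.Y78.LX.Defs

/-!
# The lower bound: a power of a cycle on points of a parabola
-/

set_option autoImplicit false

namespace Pool.Agent.Y78.LX

open Finset

/-- the affine function of a line on the parabola -/
def gg (a b c : ℝ) (x : ℕ) : ℝ := a * x + b * (x : ℝ) ^ 2 - c

theorem gg_conv (a b c : ℝ) (x y z : ℕ) :
    ((z : ℝ) - y) * gg a b c x + ((y : ℝ) - x) * gg a b c z - ((z : ℝ) - x) * gg a b c y =
      b * ((y : ℝ) - x) * ((z : ℝ) - y) * ((z : ℝ) - x) := by
  unfold gg; ring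

/-- The points of a parabola on one side of a line form an interval or the complement of one. -/
theorem interval_pos (a b c : ℝ) (hab : a ≠ 0 ∨ b ≠ 0) (hb : 0 ≤ b) (n : ℕ) :
    ∃ s t : ℕ, s ≤ t ∧ t ≤ n ∧ ∀ i j : ℕ, i < n → j < n → i ≠ j →
      (gg a b c i * gg a b c j < 0 ∨ (gg a b c i = 0 ∧ gg a b c j = 0)) →
      ((s ≤ i ∧ i < t) ∧ ¬ (s ≤ j ∧ j < t)) ∨ (¬ (s ≤ i ∧ i < t) ∧ (s ≤ j ∧ j < t)) := by
  classical
  set I := (Finset.range n).filter fun x => gg a b c x < 0 ∨
    (gg a b c x = 0 ∧ ∃ y, x < y ∧ y < n ∧ gg a b c y = 0) with hI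
  have hthree : ∀ i j y : ℕ, i < j → j < y → gg a b c i = 0 → gg a b c j = 0 →
      gg a b c y = 0 → False := by
    intro i j y hij hjy h1 h2 h3
    have h4 := gg_conv a b c i j y
    rw [h1, h2, h3] at h4
    have e1 : (0 : ℝ) < (j : ℝ) - i := by
      have : (i : ℝ) < j := by exact_mod_cast hij
      linarith
    have e2 : (0 : ℝ) < (y : ℝ) - j := by
      have : (j : ℝ) < y := by exact_mod_cast hjy
      linarith
    have e3 : (0 : ℝ) < (y : ℝ) - i := by linarith
    have h5 : b = 0 := by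
      have h6 : b * (((j : ℝ) - i) * ((y : ℝ) - j) * ((y : ℝ) - i)) = 0 := by linarith
      rcases mul_eq_zero.1 h6 with h7 | h7
      · exact h7
      · exact absurd h7 (by positivity)
    have h8 : a * ((j : ℝ) - i) = 0 := by
      unfold gg at h1 h2
      rw [h5] at h1 h2
      linarith
    have h9 : a = 0 := (mul_eq_zero.1 h8).resolve_right e1.ne'
    rcases hab with h | h
    · exact h h9
    · exact h h5
  have hpair : ∀ i j : ℕ, i < n → j < n → i ≠ j →
      (gg a b c i * gg a b c j < 0 ∨ (gg a b c i = 0 ∧ gg a b c j = 0)) →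
      (i ∈ I ∧ j ∉ I) ∨ (i ∉ I ∧ j ∈ I) := by
    have hzero : ∀ i j : ℕ, i < j → i < n → j < n → gg a b c i = 0 → gg a b c j = 0 →
        i ∈ I ∧ j ∉ I := by
      intro i j hij hi hj h1 h2
      refine ⟨?_, ?_⟩
      · rw [hI, Finset.mem_filter, Finset.mem_range]
        exact ⟨hi, Or.inr ⟨h1, j, hij, hj, h2⟩⟩
      · intro h3
        rw [hI, Finset.mem_filter] at h3
        rcases h3.2 with h4 | ⟨_, y, hy, _, h4⟩
        · linarith
        · exact hthree i j y hij hy h1 h2 h4
    have hneg : ∀ i j : ℕ, i < n → j < n → gg a b c i < 0 → 0 < gg a b c j → i ∈ I ∧ j ∉ I := by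
      intro i j hi hj h1 h2
      refine ⟨?_, ?_⟩
      · rw [hI, Finset.mem_filter, Finset.mem_range]
        exact ⟨hi, Or.inl h1⟩
      · intro h3
        rw [hI, Finset.mem_filter] at h3
        rcases h3.2 with h4 | ⟨h4, _⟩ <;> linarith
    intro i j hi hj hij h
    rcases h with h | ⟨h1, h2⟩
    · rcases mul_neg_iff.1 h with ⟨h1, h2⟩ | ⟨h1, h2⟩
      · have := hneg j i hj hi h2 h1
        exact Or.inr ⟨this.2, this.1⟩
      · exact Or.inl (hneg i j hi hj h1 h2)
    · rcases lt_or_gt_of_ne hij with h3 | h3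
      · exact Or.inl (hzero i j h3 hi hj h1 h2)
      · have := hzero j i h3 hj hi h2 h1
        exact Or.inr ⟨this.2, this.1⟩
  rcases I.eq_empty_or_nonempty with h0 | h0
  · refine ⟨0, 0, le_rfl, Nat.zero_le _, fun i j hi hj hij h => ?_⟩
    have h1 := hpair i j hi hj hij h
    rw [h0] at h1
    simp at h1
  · have hle0 : ∀ x ∈ I, gg a b c x ≤ 0 := by
      intro x hx
      rw [hI, Finset.mem_filter] at hx
      rcases hx.2 with h | ⟨h, _⟩ <;> linarith
    have hmem : ∀ x < n, (x ∈ I ↔ I.min' h0 ≤ x ∧ x < I.max' h0 + 1) := by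
      intro x hx
      constructor
      · intro h
        exact ⟨I.min'_le x h, Nat.lt_succ_of_le (I.le_max' x h)⟩
      · rintro ⟨h1, h2⟩
        have hu := I.min'_mem h0
        have hv := I.max'_mem h0
        set u := I.min' h0
        set v := I.max' h0
        rcases Nat.eq_or_lt_of_le h1 with h3 | h3
        · rw [← h3]; exact hu
        rcases Nat.eq_or_lt_of_le (Nat.le_of_lt_succ h2) with h4 | h4
        · rw [h4]; exact hv
        have h5 := gg_conv a b c u x v
        have e1 : (0 : ℝ) < (x : ℝ) - u := by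
          have : (u : ℝ) < x := by exact_mod_cast h3
          linarith
        have e2 : (0 : ℝ) < (v : ℝ) - x := by
          have : (x : ℝ) < v := by exact_mod_cast h4
          linarith
        have e3 : (0 : ℝ) < (v : ℝ) - u := by linarith
        have g1 := hle0 u hu
        have g2 := hle0 v hv
        have g3 : ((v : ℝ) - x) * gg a b c u ≤ 0 := mul_nonpos_of_nonneg_of_nonpos e2.le g1
        have g4 : ((x : ℝ) - u) * gg a b c v ≤ 0 := mul_nonpos_of_nonneg_of_nonpos e1.le g2
        have g5 : 0 ≤ b * ((x : ℝ) - u) * ((v : ℝ) - x) * ((v : ℝ) - u) := by positivity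
        have g6 : ((v : ℝ) - u) * gg a b c x ≤ 0 := by linarith
        have g7 : gg a b c x ≤ 0 := by
          by_contra hcon
          push Not at hcon
          have := mul_pos e3 hcon
          linarith
        rw [hI, Finset.mem_filter, Finset.mem_range]
        refine ⟨hx, ?_⟩
        rcases lt_or_eq_of_le g7 with g8 | g8
        · exact Or.inl g8
        · right
          rw [g8, mul_zero] at h5
          have g9 : ((x : ℝ) - u) * gg a b c v = 0 := by linarith
          have g10 : gg a b c v = 0 := (mul_eq_zero.1 g9).resolve_left e1.ne'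
          exact ⟨g8, v, h4, Finset.mem_range.1 (Finset.mem_filter.1 hv).1, g10⟩
    refine ⟨I.min' h0, I.max' h0 + 1, ?_, ?_, ?_⟩
    · exact (I.min'_le _ (I.max'_mem h0)).trans (Nat.le_succ _)
    · exact Finset.mem_range.1 (Finset.mem_filter.1 (I.max'_mem h0)).1
    · intro i j hi hj hij h
      rw [← hmem i hi, ← hmem j hj]
      exact hpair i j hi hj hij h

theorem interval (a b c : ℝ) (hab : a ≠ 0 ∨ b ≠ 0) (n : ℕ) :
    ∃ s t : ℕ, s ≤ t ∧ t ≤ n ∧ ∀ i j : ℕ, i < n → j < n → i ≠ j →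
      (gg a b c i * gg a b c j < 0 ∨ (gg a b c i = 0 ∧ gg a b c j = 0)) →
      ((s ≤ i ∧ i < t) ∧ ¬ (s ≤ j ∧ j < t)) ∨ (¬ (s ≤ i ∧ i < t) ∧ (s ≤ j ∧ j < t)) := by
  rcases le_or_gt 0 b with h | h
  · exact interval_pos a b c hab h n
  · obtain ⟨s, t, h1, h2, h3⟩ := interval_pos (-a) (-b) (-c)
      (hab.imp (fun h => neg_ne_zero.2 h) (fun h => neg_ne_zero.2 h)) (by linarith) n
    refine ⟨s, t, h1, h2, fun i j hi hj hij h4 => h3 i j hi hj hij ?_⟩
    have h5 : ∀ x, gg (-a) (-b) (-c) x = -gg a b c x := by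
      intro x; unfold gg; ring
    rw [h5, h5, neg_mul_neg, neg_eq_zero, neg_eq_zero]
    exact h4

theorem mod_lem {x n : ℕ} (h : x < 2 * n) : x % n = if x < n then x else x - n := by
  split_ifs with h1
  · exact Nat.mod_eq_of_lt h1
  · rw [Nat.mod_eq_sub_mod (not_lt.1 h1), Nat.mod_eq_of_lt (by omega)]

/-- Starting points of the long edges. -/
def CC (q j r : ℕ) : Finset ℕ :=
  ((Finset.range q) ×ˢ (Finset.range j)).image fun x => x.1 * (r + 1) + x.2

/-- Starting points and lengths of the edges. -/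
def DD (n q j r : ℕ) : Finset (ℕ × ℕ) :=
  ((Finset.range n) ×ˢ (Finset.Icc 1 r)) ∪ (CC q j r ×ˢ {r + 1})

theorem card_CC {q j r : ℕ} (hj : j ≤ r + 1) : (CC q j r).card = q * j := by
  unfold CC
  rw [Finset.card_image_of_injOn, Finset.card_product, Finset.card_range, Finset.card_range]
  rintro ⟨x, y⟩ h ⟨x', y'⟩ h' heq
  simp only [Finset.coe_product, Finset.coe_range, Set.mem_prod, Set.mem_Iio] at h h'
  simp only at heq
  have h1 : y = y' := by
    have e1 := congrArg (fun z => z % (r + 1)) heq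
    simp only [Nat.mul_add_mod_self_right] at e1
    have e2 : (x * (r + 1) + y) % (r + 1) = y := by
      rw [Nat.mul_comm, Nat.mul_add_mod, Nat.mod_eq_of_lt (by omega)]
    have e3 : (x' * (r + 1) + y') % (r + 1) = y' := by
      rw [Nat.mul_comm, Nat.mul_add_mod, Nat.mod_eq_of_lt (by omega)]
    rw [← e2, ← e3, heq]
  rw [h1] at heq
  have h2 : x * (r + 1) = x' * (r + 1) := by omega
  have h3 : x = x' := Nat.eq_of_mul_eq_mul_right (by omega) h2
  rw [h1, h3]

theorem card_DD {n q j r : ℕ} (hj : j ≤ r + 1) : (DD n q j r).card = n * r + q * j := by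
  unfold DD
  rw [Finset.card_union_of_disjoint]
  · rw [Finset.card_product, Finset.card_product, Finset.card_range, Nat.card_Icc,
      Finset.card_singleton, mul_one, card_CC hj]
    simp
  · rw [Finset.disjoint_left]
    rintro ⟨x, d⟩ h h'
    rw [Finset.mem_product, Finset.mem_Icc] at h
    rw [Finset.mem_product, Finset.mem_singleton] at h'
    omega

theorem mem_DD {n q j r : ℕ} (hq : q * (r + 1) ≤ n) (hj : j ≤ r + 1) {x : ℕ × ℕ}
    (hx : x ∈ DD n q j r) : x.1 < n ∧ 1 ≤ x.2 ∧ x.2 ≤ r + 1 := by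
  unfold DD at hx
  rw [Finset.mem_union, Finset.mem_product, Finset.mem_product, Finset.mem_range, Finset.mem_Icc,
    Finset.mem_singleton] at hx
  rcases hx with ⟨h1, h2⟩ | ⟨h1, h2⟩
  · exact ⟨h1, h2.1, by omega⟩
  · unfold CC at h1
    rw [Finset.mem_image] at h1
    obtain ⟨⟨a, b⟩, h3, h4⟩ := h1
    rw [Finset.mem_product, Finset.mem_range, Finset.mem_range] at h3
    simp only at h3 h4
    have h5 : (a + 1) * (r + 1) ≤ q * (r + 1) := Nat.mul_le_mul_right _ h3.1
    have h6 : a * (r + 1) + b < (a + 1) * (r + 1) := by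
      rw [Nat.add_mul, one_mul]; omega
    exact ⟨by omega, by omega, by omega⟩

/-- `(i, d)` covers the gap after `γ`. -/
def cov (n γ : ℕ) (x : ℕ × ℕ) : Prop := ∃ m < x.2, (x.1 + m) % n = γ

open Classical in
theorem count_cov {n q j r γ : ℕ} (hq : q * (r + 1) ≤ n) (hj : j ≤ r + 1) (hn : 2 * r + 3 ≤ n)
    (hγ : γ < n) :
    2 * ((DD n q j r).filter (cov n γ)).card ≤ r * (r + 1) + 2 * j := by
  have h1 : (DD n q j r).filter (cov n γ) ⊆
      ((Finset.Icc 1 r).biUnion fun d => (Finset.range d).image fun m => ((γ + n - m) % n, d)) ∪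
        ((CC q j r ×ˢ {r + 1}).filter (cov n γ)) := by
    intro x hx
    rw [Finset.mem_filter] at hx
    obtain ⟨hx1, hx2⟩ := hx
    unfold DD at hx1
    rw [Finset.mem_union] at hx1 ⊢
    rcases hx1 with h | h
    · left
      rw [Finset.mem_product, Finset.mem_range, Finset.mem_Icc] at h
      obtain ⟨m, hm, hm'⟩ := hx2
      rw [Finset.mem_biUnion]
      refine ⟨x.2, Finset.mem_Icc.2 h.2, ?_⟩
      rw [Finset.mem_image]
      refine ⟨m, Finset.mem_range.2 hm, ?_⟩
      apply Prod.ext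
      · simp only
        rw [mod_lem (by omega)] at hm' ⊢
        split_ifs at hm' ⊢ <;> omega
      · rfl
    · right
      rw [Finset.mem_filter]
      exact ⟨h, hx2⟩
  have h2 : (((Finset.Icc 1 r).biUnion fun d => (Finset.range d).image
      fun m => ((γ + n - m) % n, d))).card ≤ ∑ d ∈ Finset.Icc 1 r, d := by
    refine Finset.card_biUnion_le.trans (Finset.sum_le_sum fun d _ => ?_)
    exact Finset.card_image_le.trans (by simp)
  have h3 : 2 * ∑ d ∈ Finset.Icc 1 r, d = r * (r + 1) := by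
    have h4 : ∑ d ∈ Finset.Icc 1 r, d = ∑ d ∈ Finset.range (r + 1), d := by
      rw [Finset.range_eq_Ico, Finset.sum_eq_sum_Ico_succ_bot (by omega)]
      simp
      rfl
    rw [h4, mul_comm, Finset.sum_range_id_mul_two]
    simp; ring
  have h5 : ((CC q j r ×ˢ {r + 1}).filter (cov n γ)).card ≤ j := by
    refine le_trans (Finset.card_le_card_of_injOn (t := Finset.range j)
      (fun x => x.1 % (r + 1)) ?_ ?_) (le_of_eq (Finset.card_range j))
    · rintro ⟨x, d⟩ hx
      rw [Finset.mem_coe, Finset.mem_filter, Finset.mem_product] at hx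
      obtain ⟨⟨h6, -⟩, -⟩ := hx
      unfold CC at h6
      rw [Finset.mem_image] at h6
      obtain ⟨⟨a, b⟩, h7, h8⟩ := h6
      rw [Finset.mem_product, Finset.mem_range, Finset.mem_range] at h7
      simp only at h7 h8
      simp only [Finset.coe_range, Set.mem_Iio]
      rw [← h8, Nat.mul_comm, Nat.mul_add_mod, Nat.mod_eq_of_lt (by omega)]
      exact h7.2
    · rintro ⟨x, d⟩ hx ⟨x', d'⟩ hx' heq
      rw [Finset.mem_coe, Finset.mem_filter, Finset.mem_product, Finset.mem_singleton] at hx hx'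
      obtain ⟨⟨h6, hd⟩, m, hm, hm2⟩ := hx
      obtain ⟨⟨h6', hd'⟩, m', hm', hm2'⟩ := hx'
      simp only at heq h6 h6' hd hd' hm hm' hm2 hm2'
      unfold CC at h6 h6'
      rw [Finset.mem_image] at h6 h6'
      obtain ⟨⟨a, b⟩, h7, h8⟩ := h6
      obtain ⟨⟨a', b'⟩, h7', h8'⟩ := h6'
      rw [Finset.mem_product, Finset.mem_range, Finset.mem_range] at h7 h7'
      simp only at h7 h7' h8 h8'
      have hb : b = b' := by
        have e2 : x % (r + 1) = b := by
          rw [← h8, Nat.mul_comm, Nat.mul_add_mod, Nat.mod_eq_of_lt (by omega)]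
        have e3 : x' % (r + 1) = b' := by
          rw [← h8', Nat.mul_comm, Nat.mul_add_mod, Nat.mod_eq_of_lt (by omega)]
        rw [← e2, ← e3, heq]
      have hlt : ∀ a a' : ℕ, a < a' → a' < q → a * (r + 1) + (r + 1) ≤ a' * (r + 1) ∧
          a' * (r + 1) + (r + 1) ≤ n := by
        intro a a' h h'
        constructor
        · calc a * (r + 1) + (r + 1) = (a + 1) * (r + 1) := by ring
            _ ≤ a' * (r + 1) := Nat.mul_le_mul_right _ h
        · calc a' * (r + 1) + (r + 1) = (a' + 1) * (r + 1) := by ring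
            _ ≤ q * (r + 1) := Nat.mul_le_mul_right _ h'
            _ ≤ n := hq
      have hxn : x < n := by
        rcases Nat.lt_or_ge a q with h | h
        · have : (a + 1) * (r + 1) ≤ q * (r + 1) := Nat.mul_le_mul_right _ h
          have h9 : (a + 1) * (r + 1) = a * (r + 1) + (r + 1) := by ring
          omega
        · omega
      have hxn' : x' < n := by
        rcases Nat.lt_or_ge a' q with h | h
        · have : (a' + 1) * (r + 1) ≤ q * (r + 1) := Nat.mul_le_mul_right _ h
          have h9 : (a' + 1) * (r + 1) = a' * (r + 1) + (r + 1) := by ring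
          omega
        · omega
      rw [mod_lem (by omega)] at hm2 hm2'
      have haa : a = a' := by
        rcases lt_trichotomy a a' with h | h | h
        · exfalso
          obtain ⟨e1, e2⟩ := hlt a a' h h7'.1
          set P := a * (r + 1)
          set P' := a' * (r + 1)
          split_ifs at hm2 hm2' <;> omega
        · exact h
        · exfalso
          obtain ⟨e1, e2⟩ := hlt a' a h h7.1
          set P := a * (r + 1)
          set P' := a' * (r + 1)
          split_ifs at hm2 hm2' <;> omega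
      rw [← h8, ← h8', haa, hb, hd, hd']
  have h6 := (Finset.card_le_card h1).trans (Finset.card_union_le _ _)
  omega

/-- An edge with exactly one end in an interval covers one of the two boundary gaps. -/
theorem cov_of_cut {n s t : ℕ} (hst : s ≤ t) (ht : t ≤ n) (i : ℕ) (hn : 0 < n) (d : ℕ)
    (h : ((s ≤ i % n ∧ i % n < t) ∧ ¬ (s ≤ (i + d) % n ∧ (i + d) % n < t)) ∨
      (¬ (s ≤ i % n ∧ i % n < t) ∧ (s ≤ (i + d) % n ∧ (i + d) % n < t))) :
    cov n (t - 1) (i, d) ∨ cov n ((s + n - 1) % n) (i, d) := by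
  induction d with
  | zero =>
    simp only [add_zero] at h
    tauto
  | succ d ih =>
    by_cases h1 : (s ≤ i % n ∧ i % n < t) ↔ (s ≤ (i + d) % n ∧ (i + d) % n < t)
    · -- the change happens in the last step
      have h2 : (i + (d + 1)) % n = if (i + d) % n + 1 < n then (i + d) % n + 1 else 0 := by
        rw [← add_assoc, Nat.add_mod (i + d) 1 n]
        have h3 : (i + d) % n < n := Nat.mod_lt _ hn
        rcases Nat.lt_or_ge 1 n with h4 | h4
        · rw [Nat.mod_eq_of_lt h4]
          split_ifs with h5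
          · exact Nat.mod_eq_of_lt h5
          · have : (i + d) % n + 1 = n := by omega
            rw [this, Nat.mod_self]
        · have h5 : n = 1 := by omega
          subst h5
          simp [Nat.mod_one]
      rw [h2] at h
      have h3 : (i + d) % n < n := Nat.mod_lt _ hn
      have h4 : (s + n - 1) % n = if s + n - 1 < n then s + n - 1 else s + n - 1 - n :=
        mod_lem (by omega)
      have h5 : (i + d) % n = t - 1 ∨ (i + d) % n = (s + n - 1) % n := by
        rw [h4]
        set y := (i + d) % n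
        split_ifs at h ⊢ <;> omega
      rcases h5 with h5 | h5
      · exact Or.inl ⟨d, Nat.lt_succ_self d, h5⟩
      · exact Or.inr ⟨d, Nat.lt_succ_self d, h5⟩
    · have h2 := ih (by tauto)
      rcases h2 with ⟨m, hm, hm'⟩ | ⟨m, hm, hm'⟩
      · exact Or.inl ⟨m, lt_trans hm (Nat.lt_succ_self d), hm'⟩
      · exact Or.inr ⟨m, lt_trans hm (Nat.lt_succ_self d), hm'⟩

/-- The edge with starting point `i` and length `d`. -/
def ed {n : ℕ} (hn : 0 < n) (x : ℕ × ℕ) : Fin n × Fin n :=
  (min ⟨x.1 % n, Nat.mod_lt _ hn⟩ ⟨(x.1 + x.2) % n, Nat.mod_lt _ hn⟩,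
    max ⟨x.1 % n, Nat.mod_lt _ hn⟩ ⟨(x.1 + x.2) % n, Nat.mod_lt _ hn⟩)

theorem ed_cases {n : ℕ} (hn : 0 < n) (x : ℕ × ℕ) :
    ((ed hn x).1.1 = x.1 % n ∧ (ed hn x).2.1 = (x.1 + x.2) % n) ∨
      ((ed hn x).1.1 = (x.1 + x.2) % n ∧ (ed hn x).2.1 = x.1 % n) := by
  unfold ed
  rcases le_total (⟨x.1 % n, Nat.mod_lt _ hn⟩ : Fin n) ⟨(x.1 + x.2) % n, Nat.mod_lt _ hn⟩ with h | h
  · left; rw [min_eq_left h, max_eq_right h]; exact ⟨rfl, rfl⟩
  · right; rw [min_eq_right h, max_eq_left h]; exact ⟨rfl, rfl⟩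

theorem ed_le {n : ℕ} (hn : 0 < n) (x : ℕ × ℕ) : (ed hn x).1 ≤ (ed hn x).2 := by
  unfold ed; exact min_le_max

/-- The geometric graph. -/
noncomputable def GP (n q j r : ℕ) (hq : q * (r + 1) ≤ n) (hj : j ≤ r + 1) (hn : 2 * r + 3 ≤ n) :
    GeomGraph n where
  pt i := ((i.1 : ℝ), (i.1 : ℝ) ^ 2)
  inj := by
    intro i j h
    have := (Prod.mk.injEq _ _ _ _ ▸ h : _ ∧ _).1
    exact Fin.ext (by exact_mod_cast this)
  noThree := by
    intro i j k hij hjk hik h
    have h1 := det_of_collinear h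
    unfold det at h1
    simp only at h1
    have h2 : ((j.1 : ℝ) - i.1) * (((k.1 : ℝ) - i.1) * ((k.1 : ℝ) - j.1)) = 0 := by linarith
    have e1 : ∀ u v : Fin n, u ≠ v → (v.1 : ℝ) - u.1 ≠ 0 := by
      intro u v huv h3
      apply huv
      have h4 : (v.1 : ℝ) = u.1 := by linarith
      exact (Fin.ext (by exact_mod_cast h4)).symm
    exact mul_ne_zero (e1 i j hij) (mul_ne_zero (e1 i k hik) (e1 j k hjk)) h2
  edges := (DD n q j r).image (ed (by omega))
  lt := by
    intro e he
    rw [Finset.mem_image] at he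
    obtain ⟨x, hx, rfl⟩ := he
    obtain ⟨h1, h2, h3⟩ := mem_DD hq hj hx
    apply lt_of_le_of_ne (ed_le _ x)
    intro h
    have h4 : (ed (by omega : 0 < n) x).1.1 = (ed (by omega : 0 < n) x).2.1 := by rw [h]
    have h5 : x.1 % n = (x.1 + x.2) % n := by
      rcases ed_cases (by omega : 0 < n) x with ⟨a, b⟩ | ⟨a, b⟩
      · rw [← a, ← b]; exact h4
      · rw [← a, ← b]; exact h4.symm
    rw [mod_lem (x := x.1) (by omega), mod_lem (x := x.1 + x.2) (by omega)] at h5
    split_ifs at h5 <;> omega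

theorem GP_card {n q j r : ℕ} (hq : q * (r + 1) ≤ n) (hj : j ≤ r + 1) (hn : 2 * r + 3 ≤ n) :
    (GP n q j r hq hj hn).edges.card = n * r + q * j := by
  rw [← card_DD (n := n) (q := q) hj]
  apply Finset.card_image_of_injOn
  intro x hx y hy h
  obtain ⟨a1, a2, a3⟩ := mem_DD hq hj hx
  obtain ⟨b1, b2, b3⟩ := mem_DD hq hj hy
  have h1 : (ed (by omega : 0 < n) x).1.1 = (ed (by omega : 0 < n) y).1.1 := by
    exact congrArg (fun z => z.1.1) h
  have h2 : (ed (by omega : 0 < n) x).2.1 = (ed (by omega : 0 < n) y).2.1 := by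
    exact congrArg (fun z => z.2.1) h
  have e1 : x.1 % n = x.1 := Nat.mod_eq_of_lt a1
  have e2 : y.1 % n = y.1 := Nat.mod_eq_of_lt b1
  have e3 := mod_lem (x := x.1 + x.2) (n := n) (by omega)
  have e4 := mod_lem (x := y.1 + y.2) (n := n) (by omega)
  rcases ed_cases (by omega : 0 < n) x with ⟨c1, c2⟩ | ⟨c1, c2⟩ <;>
    rcases ed_cases (by omega : 0 < n) y with ⟨d1, d2⟩ | ⟨d1, d2⟩ <;>
    rw [c1, d1] at h1 <;> rw [c2, d2] at h2 <;>
    simp only [e1, e2, e3, e4] at h1 h2 <;>
    apply Prod.ext <;> split_ifs at h1 h2 <;> omega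

theorem GP_met {n q j r : ℕ} (hq : q * (r + 1) ≤ n) (hj : j ≤ r + 1) (hn : 2 * r + 3 ≤ n)
    (L : Set (ℝ × ℝ)) (hL : IsLine L) : met (GP n q j r hq hj hn) L ≤ r * (r + 1) + 2 * j := by
  classical
  obtain ⟨a, b, c, hab, rfl⟩ := hL
  obtain ⟨s, t, hst, htn, h⟩ := interval a b c hab n
  have hn0 : 0 < n := by omega
  have h1 : ((GP n q j r hq hj hn).edges.filter fun e => (openSegment ℝ
      ((GP n q j r hq hj hn).pt e.1) ((GP n q j r hq hj hn).pt e.2) ∩
        {w | a * w.1 + b * w.2 = c}).Nonempty) ⊆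
      (((DD n q j r).filter (cov n (t - 1))) ∪
        ((DD n q j r).filter (cov n ((s + n - 1) % n)))).image (ed hn0) := by
    intro e he
    rw [Finset.mem_filter] at he
    obtain ⟨he1, w, hw1, hw2⟩ := he
    have he2 : e ∈ (DD n q j r).image (ed hn0) := he1
    rw [Finset.mem_image] at he2
    obtain ⟨x, hx, rfl⟩ := he2
    rw [Finset.mem_image]
    refine ⟨x, ?_, rfl⟩
    obtain ⟨α, β, hα, hβ, hαβ, rfl⟩ := hw1
    have hlt := (GP n q j r hq hj hn).lt _ he1
    simp only [Set.mem_ofPred_eq, Prod.fst_add, Prod.smul_fst, smul_eq_mul, Prod.snd_add,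
      Prod.smul_snd, GP] at hw2
    set u := (ed hn0 x).1.1 with hu
    set v := (ed hn0 x).2.1 with hv
    have huv : u ≠ v := (Fin.lt_def.1 hlt).ne
    have h3 : α * gg a b c u + β * gg a b c v = 0 := by
      unfold gg
      have : c = α * c + β * c := by rw [← add_mul, hαβ, one_mul]
      linarith
    have h4 : gg a b c u * gg a b c v < 0 ∨ (gg a b c u = 0 ∧ gg a b c v = 0) := by
      by_cases h5 : gg a b c u = 0
      · right
        rw [h5, mul_zero, zero_add] at h3
        exact ⟨h5, (mul_eq_zero.1 h3).resolve_left hβ.ne'⟩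
      · left
        have h6 : gg a b c v = -(α / β) * gg a b c u := by field_simp; linarith
        rw [h6]
        have h7 : 0 < gg a b c u ^ 2 := by positivity
        have h8 : 0 < α / β := by positivity
        nlinarith [mul_pos h8 h7]
    have h5 := h u v (ed hn0 x).1.2 (ed hn0 x).2.2 huv h4
    have h6 : ((s ≤ x.1 % n ∧ x.1 % n < t) ∧ ¬ (s ≤ (x.1 + x.2) % n ∧ (x.1 + x.2) % n < t)) ∨
      (¬ (s ≤ x.1 % n ∧ x.1 % n < t) ∧ (s ≤ (x.1 + x.2) % n ∧ (x.1 + x.2) % n < t)) := by
      rcases ed_cases hn0 x with ⟨c1, c2⟩ | ⟨c1, c2⟩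
      · rw [hu, hv, c1, c2] at h5; exact h5
      · rw [hu, hv, c1, c2] at h5; tauto
    rw [Finset.mem_union, Finset.mem_filter, Finset.mem_filter]
    rcases cov_of_cut hst htn x.1 hn0 x.2 h6 with h7 | h7
    · exact Or.inl ⟨hx, h7⟩
    · exact Or.inr ⟨hx, h7⟩
  unfold met
  refine (Finset.card_le_card h1).trans (Finset.card_image_le.trans ?_)
  refine (Finset.card_union_le _ _).trans ?_
  have h2 := count_cov (γ := t - 1) hq hj hn (by omega)
  have h3 := count_cov (γ := (s + n - 1) % n) hq hj hn (Nat.mod_lt _ hn0)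
  omega

end Pool.Agent.Y78.LX
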