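import Pool.Agent.Y78.LX.Upper
import Pool.Agent.Y78.LX.Lower

/-!
# The linear growth of `f n k`
-/

set_option autoImplicit false

namespace Pool.Agent.Y78.LX

open Finset

theorem f_gt {n K : ℕ} (G : GeomGraph n) (h : ∀ L, IsLine L → met G L ≤ K) :
    G.edges.card < f n (K + 1) := by
  have hne : {e : ℕ | ∀ G : GeomGraph n, e ≤ G.edges.card →
      ∃ L, IsLine L ∧ K + 1 ≤ met G L}.Nonempty := by
    refine ⟨n * n + 1, fun G' hG' => ?_⟩
    have h1 : G'.edges.card ≤ n * n := by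
      refine (Finset.card_le_univ _).trans ?_
      simp
    omega
  have hmem := Nat.sInf_mem hne
  by_contra hcon
  push Not at hcon
  obtain ⟨L, hL, hk⟩ := hmem G hcon
  have := h L hL
  omega

theorem f_le {n K X : ℕ} (h : ∀ G : GeomGraph n, (∀ L, IsLine L → met G L ≤ K) →
    G.edges.card < X) : f n (K + 1) ≤ X := by
  apply Nat.sInf_le
  intro G hG
  by_contra hcon
  push Not at hcon
  have h1 : ∀ L, IsLine L → met G L ≤ K := fun L hL => Nat.lt_succ_iff.1 (hcon L hL)
  exact absurd (h G h1) (not_lt.2 hG)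

/-- The upper bound, in real numbers. -/
theorem f_upper {n K : ℕ} (r : ℕ) (hn : 2 ≤ n) :
    (f n (K + 1) : ℝ) ≤ K + (n + 1) * ((K + r * (r + 1)) / (2 * (r + 1))) + 1 := by
  set y : ℝ := K + (n + 1) * ((K + r * (r + 1)) / (2 * (r + 1))) with hy
  have hy0 : 0 ≤ y := by positivity
  have h1 : f n (K + 1) ≤ ⌊y⌋₊ + 1 := by
    apply f_le
    intro G hG
    have h2 := upper r hn G hG
    have h3 : (2 * (r + 1) * G.edges.card : ℝ) ≤ 2 * (r + 1) * K + (n + 1) * (K + r * (r + 1)) := by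
      exact_mod_cast h2
    have h4 : (G.edges.card : ℝ) ≤ y := by
      have h5 : (0 : ℝ) < 2 * (r + 1) := by positivity
      have h6 : 2 * (r + 1) * y = 2 * (r + 1) * K + (n + 1) * (K + r * (r + 1)) := by
        rw [hy]; field_simp
      nlinarith
    exact Nat.lt_succ_of_le (Nat.le_floor h4)
  have h2 : ((⌊y⌋₊ : ℕ) : ℝ) ≤ y := Nat.floor_le hy0
  have h3 : (f n (K + 1) : ℝ) ≤ ((⌊y⌋₊ + 1 : ℕ) : ℝ) := by exact_mod_cast h1
  push_cast at h3
  linarith

/-- The lower bound, in real numbers. -/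
theorem f_lower {n K j r : ℕ} (hj : j ≤ r + 1) (hn : 2 * r + 3 ≤ n) (hK : r * (r + 1) + 2 * j ≤ K) :
    (n : ℝ) * (r + j / (r + 1)) - j < f n (K + 1) := by
  have hq : n / (r + 1) * (r + 1) ≤ n := Nat.div_mul_le_self n (r + 1)
  have h1 := f_gt (GP n (n / (r + 1)) j r hq hj hn)
    (fun L hL => (GP_met hq hj hn L hL).trans hK)
  rw [GP_card] at h1
  have h2 : ((n * r + n / (r + 1) * j : ℕ) : ℝ) < f n (K + 1) := by exact_mod_cast h1
  have h3 : n < (n / (r + 1) + 1) * (r + 1) := by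
    have := Nat.lt_div_mul_add (a := n) (b := r + 1) (by omega)
    rw [Nat.add_mul, one_mul]; omega
  have h4 : (n : ℝ) ≤ (((n / (r + 1) : ℕ) : ℝ) + 1) * (r + 1) := by exact_mod_cast h3.le
  have h5 : (n : ℝ) / (r + 1) ≤ ((n / (r + 1) : ℕ) : ℝ) + 1 := by
    rw [div_le_iff₀ (by positivity)]; exact h4
  have h6 : (n : ℝ) / (r + 1) * j ≤ (((n / (r + 1) : ℕ) : ℝ) + 1) * j :=
    mul_le_mul_of_nonneg_right h5 (Nat.cast_nonneg _)
  push_cast at h2
  have h7 : (n : ℝ) * (r + j / (r + 1)) = n * r + n / (r + 1) * j := by ring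
  rw [h7]
  linarith

/-- Odd `k`. -/
theorem odd_case {n r j : ℕ} (hj : j ≤ r) (hn : 2 * r + 3 ≤ n) :
    (n : ℝ) * (r + j / (r + 1)) - j < f n (r * (r + 1) + 2 * j + 1) ∧
      (f n (r * (r + 1) + 2 * j + 1) : ℝ) ≤ n * (r + j / (r + 1)) + (r + 2) ^ 2 := by
  refine ⟨f_lower (by omega) hn le_rfl, ?_⟩
  have h := f_upper (n := n) (K := r * (r + 1) + 2 * j) r (by omega)
  push_cast at h
  have h1 : ((r : ℝ) * (r + 1) + 2 * j + r * (r + 1)) / (2 * (r + 1)) = r + j / (r + 1) := by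
    field_simp; ring
  rw [h1] at h
  have h2 : (j : ℝ) / (r + 1) ≤ 1 := by
    rw [div_le_one (by positivity)]
    have : (j : ℝ) ≤ r := by exact_mod_cast hj
    linarith
  have h3 : (j : ℝ) ≤ r := by exact_mod_cast hj
  nlinarith

theorem exists_r (K : ℕ) : ∃ r, r * (r + 1) ≤ K ∧ K < (r + 1) * (r + 2) := by
  induction K with
  | zero => exact ⟨0, by simp, by simp⟩
  | succ K ih =>
    obtain ⟨r, h1, h2⟩ := ih
    by_cases h : K + 1 < (r + 1) * (r + 2)
    · exact ⟨r, by omega, h⟩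
    · have h3 : (r + 1) * (r + 1 + 1) = (r + 1) * (r + 2) := rfl
      refine ⟨r + 1, by omega, ?_⟩
      have : (r + 1 + 1) * (r + 1 + 2) = (r + 1) * (r + 2) + 2 * (r + 2) := by ring
      omega

/-- All `k`. -/
theorem all_case {n k : ℕ} (hk : 1 ≤ k) (hn : 2 * √(k : ℝ) + 3 ≤ n) :
    |(f n k : ℝ) - (√(k : ℝ) - 1 / 2) * n| ≤ 2 * n / √(k : ℝ) + 3 * k := by
  obtain ⟨K, rfl⟩ : ∃ K, k = K + 1 := ⟨k - 1, by omega⟩
  set x : ℝ := √((K + 1 : ℕ) : ℝ) with hx
  have hx2 : x ^ 2 = K + 1 := by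
    rw [hx, Real.sq_sqrt (by positivity)]; push_cast; ring
  have hx1 : 1 ≤ x := by
    rw [hx, Real.one_le_sqrt]; push_cast; linarith [Nat.cast_nonneg (α := ℝ) K]
  have hx0 : 0 < x := by linarith
  have hn0 : (0 : ℝ) ≤ n := Nat.cast_nonneg _
  have hkk : (((K + 1 : ℕ) : ℝ)) = x ^ 2 := by rw [hx2]; push_cast; ring
  rw [abs_le]
  constructor
  · -- lower bound
    obtain ⟨r, h1, h2⟩ := exists_r K
    set j := (K - r * (r + 1)) / 2 with hj
    have h3 : (r + 1) * (r + 2) = r * (r + 1) + 2 * (r + 1) := by ring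
    have hj1 : j ≤ r := by omega
    have hj2 : K ≤ r * (r + 1) + 2 * j + 1 := by omega
    have hj3 : r * (r + 1) + 2 * j ≤ K := by omega
    have hr1 : ((r : ℝ) + 1) * r ≤ K := by
      have : ((r * (r + 1) : ℕ) : ℝ) ≤ K := by exact_mod_cast h1
      push_cast at this; linarith
    have hr0 : (0 : ℝ) ≤ r := Nat.cast_nonneg _
    have hrx : (r : ℝ) ≤ x := by
      by_contra hcon
      push Not at hcon
      nlinarith
    have hnr : 2 * r + 3 ≤ n := by
      have : (2 * r + 3 : ℝ) ≤ n := by linarith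
      exact_mod_cast this
    have h4 := f_lower (n := n) (K := K) (by omega : j ≤ r + 1) hnr hj3
    -- the slope
    have hj4 : (K : ℝ) ≤ r * (r + 1) + 2 * j + 1 := by exact_mod_cast hj2
    set s : ℝ := r + 1 with hs
    have hs0 : 0 < s := by rw [hs]; positivity
    have hxs : x ≤ 2 * s := by
      have h5 : ((K + 1 : ℕ) : ℝ) ≤ (((r + 1) * (r + 2) : ℕ) : ℝ) := by exact_mod_cast h2
      rw [hkk] at h5
      push_cast at h5
      by_contra hcon
      push Not at hcon
      nlinarith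
    have h6 : x - 1 / 2 - 2 / x ≤ r + j / s := by
      have h7 : (r : ℝ) + j / s ≥ (s + (x ^ 2 - 2) / s) / 2 - 1 / 2 := by
        have h8 : (x ^ 2 - 2) / s ≤ (r * (r + 1) + 2 * j) / s := by
          apply div_le_div_of_nonneg_right _ hs0.le
          linarith
        have h9 : ((r : ℝ) * (r + 1) + 2 * j) / s = r + 2 * (j / s) := by
          rw [← hs]; field_simp
        rw [h9] at h8
        linarith
      have h8 : s + x ^ 2 / s ≥ 2 * x := by
        have : s + x ^ 2 / s - 2 * x = (s - x) ^ 2 / s := by field_simp; ring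
        have h9 : 0 ≤ (s - x) ^ 2 / s := by positivity
        linarith
      have h9 : (x ^ 2 - 2) / s = x ^ 2 / s - 2 / s := by ring
      have h10 : 1 / s ≤ 2 / x := by
        rw [div_le_div_iff₀ hs0 hx0]; linarith
      have h11 : 2 / s = 2 * (1 / s) := by ring
      rw [h9, h11] at h7
      linarith
    have h7 : (x - 1 / 2 - 2 / x) * n ≤ (r + j / s) * n := mul_le_mul_of_nonneg_right h6 hn0
    have h8 : (j : ℝ) ≤ x ^ 2 := by
      have : (j : ℝ) ≤ r := by exact_mod_cast hj1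
      nlinarith
    have h9 : 2 * (n : ℝ) / x = 2 / x * n := by ring
    rw [hkk, h9]
    have h10 : (0 : ℝ) ≤ x ^ 2 := by positivity
    nlinarith
  · -- upper bound
    set r := Nat.sqrt K with hr
    have h1 : r * r ≤ K := Nat.sqrt_le K
    have h2 : K < (r + 1) * (r + 1) := Nat.lt_succ_sqrt K
    have hn2 : 2 ≤ n := by
      have : (2 : ℝ) ≤ n := by linarith
      exact_mod_cast this
    have h3 := f_upper (n := n) (K := K) r hn2
    set s : ℝ := r + 1 with hs
    have hr0 : (0 : ℝ) ≤ r := Nat.cast_nonneg _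
    have hs0 : 0 < s := by rw [hs]; positivity
    have hxs : x ≤ s := by
      have h4 : ((K + 1 : ℕ) : ℝ) ≤ (((r + 1) * (r + 1) : ℕ) : ℝ) := by exact_mod_cast h2
      rw [hkk] at h4
      push_cast at h4
      by_contra hcon
      push Not at hcon
      nlinarith
    have hsx : s ≤ x + 1 := by
      have h4 : ((r * r : ℕ) : ℝ) ≤ K := by exact_mod_cast h1
      push_cast at h4
      have h5 : (r : ℝ) ≤ x := by
        by_contra hcon
        push Not at hcon
        nlinarith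
      linarith
    have h4 : ((K : ℝ) + r * s) / (2 * s) ≤ x - 1 / 2 + 1 / (2 * x) := by
      have h5 : ((K : ℝ) + r * s) / (2 * s) = (s + K / s) / 2 - 1 / 2 := by
        field_simp
        rw [hs]; ring
      have h6 : (K : ℝ) / s ≤ x ^ 2 / s := by
        apply div_le_div_of_nonneg_right _ hs0.le
        linarith
      have h7 : s + x ^ 2 / s - 2 * x = (s - x) ^ 2 / s := by field_simp; ring
      have h8 : (s - x) ^ 2 / s ≤ 1 / x := by
        rw [div_le_div_iff₀ hs0 hx0]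
        have h9 : (s - x) ^ 2 ≤ 1 := by nlinarith
        nlinarith
      have h9 : 1 / (2 * x) = 1 / x / 2 := by field_simp
      rw [h5, h9]
      linarith
    have h5 : ((n : ℝ) + 1) * (((K : ℝ) + r * s) / (2 * s)) ≤ (n + 1) * (x - 1 / 2 + 1 / (2 * x)) :=
      mul_le_mul_of_nonneg_left h4 (by positivity)
    have h6 : 1 / (2 * x) ≤ 1 / 2 := by
      rw [div_le_div_iff₀ (by positivity) (by norm_num)]; linarith
    have h7 : ((n : ℝ) + 1) * (x - 1 / 2 + 1 / (2 * x)) =
        (x - 1 / 2) * n + n * (1 / (2 * x)) + (x - 1 / 2 + 1 / (2 * x)) := by ring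
    have h8 : 2 * (n : ℝ) / x = n * (1 / (2 * x)) + 3 / 2 * n / x := by
      field_simp; ring
    have h9 : (0 : ℝ) ≤ 3 / 2 * n / x := by positivity
    rw [hkk, h8]
    have h10 : x ≤ x ^ 2 := by nlinarith
    have h11 : (K : ℝ) = x ^ 2 - 1 := by linarith
    rw [h7] at h5
    linarith

end Pool.Agent.Y78.LX
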