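import Mathlib

/-!
# Sums of rank differences, and a splitting of a finite set of reals
-/

set_option autoImplicit false

namespace Pool.Agent.Y78.LX

open Finset

variable {ι : Type*}

/-- `sep Q σ u v` is the number of `p ∈ Q` that separate `u` and `v` in the order of `σ`. -/
noncomputable def sep (Q : Finset ι) (σ : ι → ℝ) (u v : ι) : ℕ :=
  (Q.filter fun p => (σ u < σ p ∧ σ p ≤ σ v) ∨ (σ v < σ p ∧ σ p ≤ σ u)).card

/-- The rank. -/
noncomputable def rk (Q : Finset ι) (σ : ι → ℝ) (u : ι) : ℕ := (Q.filter fun p => σ p ≤ σ u).card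

theorem rk_add [DecidableEq ι] (Q : Finset ι) (σ : ι → ℝ) (u v : ι) (h : σ u < σ v) :
    rk Q σ v = rk Q σ u + sep Q σ u v := by
  unfold rk sep
  rw [← Finset.card_union_of_disjoint]
  · congr 1
    ext p
    simp only [Finset.mem_filter, Finset.mem_union]
    constructor
    · rintro ⟨h1, h2⟩
      by_cases h3 : σ p ≤ σ u
      · exact Or.inl ⟨h1, h3⟩
      · exact Or.inr ⟨h1, Or.inl ⟨not_le.1 h3, h2⟩⟩
    · rintro (⟨h1, h2⟩ | ⟨h1, ⟨_, h3⟩ | ⟨h3, h4⟩⟩)
      · exact ⟨h1, h2.trans h.le⟩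
      · exact ⟨h1, h3⟩
      · exact absurd (h3.trans_le h4) (not_lt.2 h.le)
  · rw [Finset.disjoint_left]
    intro p hp hp'
    rw [Finset.mem_filter] at hp hp'
    rcases hp'.2 with ⟨h1, _⟩ | ⟨h1, h2⟩
    · exact absurd hp.2 (not_le.2 h1)
    · exact absurd (h1.trans_le h2) (not_lt.2 h.le)

theorem sep_comm (Q : Finset ι) (σ : ι → ℝ) (u v : ι) : sep Q σ u v = sep Q σ v u := by
  unfold sep
  congr 1
  ext p
  simp only [Finset.mem_filter]
  tauto

theorem sep_pos (Q : Finset ι) (σ : ι → ℝ) (u v : ι) (hv : v ∈ Q) (h : σ u < σ v) :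
    0 < sep Q σ u v := by
  unfold sep
  rw [Finset.card_pos]
  exact ⟨v, Finset.mem_filter.2 ⟨hv, Or.inl ⟨h, le_rfl⟩⟩⟩

theorem rk_inj [DecidableEq ι] (Q : Finset ι) (σ : ι → ℝ) (hσ : Set.InjOn σ Q) {u v : ι} (hu : u ∈ Q) (hv : v ∈ Q)
    (h : rk Q σ u = rk Q σ v) : u = v := by
  apply hσ hu hv
  rcases lt_trichotomy (σ u) (σ v) with h1 | h1 | h1
  · have h2 := rk_add Q σ u v h1
    have h3 := sep_pos Q σ u v hv h1
    omega
  · exact h1
  · have h2 := rk_add Q σ v u h1
    have h3 := sep_pos Q σ v u hu h1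
    omega

/-- The sum of the rank differences of the pairs of a family is large. -/
theorem rank_sum [LinearOrder ι] (Q : Finset ι) (σ : ι → ℝ) (hσ : Set.InjOn σ Q)
    (E : Finset (ι × ι)) (hE : ∀ e ∈ E, e.1 ∈ Q ∧ e.2 ∈ Q ∧ e.1 < e.2) (r : ℕ) :
    2 * (r + 1) * E.card ≤ 2 * ∑ e ∈ E, sep Q σ e.1 e.2 + Q.card * (r * (r + 1)) := by
  set lo : ι × ι → ι := fun e => if σ e.1 < σ e.2 then e.1 else e.2 with hlo
  set E' := E.filter fun e => sep Q σ e.1 e.2 ≤ r with hE'
  -- the injection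
  have hne : ∀ e ∈ E, σ e.1 ≠ σ e.2 := by
    intro e he h
    obtain ⟨h1, h2, h3⟩ := hE e he
    exact h3.ne (hσ h1 h2 h)
  have hinj : Set.InjOn (fun e : ι × ι => (lo e, sep Q σ e.1 e.2)) (E' : Set (ι × ι)) := by
    intro e he e' he' heq
    have he1 : e ∈ E := (Finset.mem_filter.1 (Finset.mem_coe.1 he)).1
    have he1' : e' ∈ E := (Finset.mem_filter.1 (Finset.mem_coe.1 he')).1
    obtain ⟨a1, a2, a3⟩ := hE e he1
    obtain ⟨b1, b2, b3⟩ := hE e' he1'
    simp only [Prod.mk.injEq, hlo] at heq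
    obtain ⟨h1, h2⟩ := heq
    have n1 := hne e he1
    have n2 := hne e' he1'
    by_cases c1 : σ e.1 < σ e.2 <;> by_cases c2 : σ e'.1 < σ e'.2
    · rw [if_pos c1, if_pos c2] at h1
      have r1 := rk_add Q σ _ _ c1
      have r2 := rk_add Q σ _ _ c2
      rw [h1] at r1 h2
      have r3 : rk Q σ e.2 = rk Q σ e'.2 := by omega
      exact Prod.ext h1 (rk_inj Q σ hσ a2 b2 r3)
    · have c2' : σ e'.2 < σ e'.1 := lt_of_le_of_ne (not_lt.1 c2) n2.symm
      rw [if_pos c1, if_neg c2] at h1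
      have r1 := rk_add Q σ _ _ c1
      have r2 := rk_add Q σ _ _ c2'
      rw [sep_comm Q σ e'.1 e'.2] at h2
      rw [h1] at r1 h2
      have r3 : rk Q σ e.2 = rk Q σ e'.1 := by omega
      have r4 := rk_inj Q σ hσ a2 b1 r3
      rw [h1, r4] at a3
      exact absurd a3 (not_lt.2 b3.le)
    · have c1' : σ e.2 < σ e.1 := lt_of_le_of_ne (not_lt.1 c1) n1.symm
      rw [if_neg c1, if_pos c2] at h1
      have r1 := rk_add Q σ _ _ c1'
      have r2 := rk_add Q σ _ _ c2
      rw [sep_comm Q σ e.1 e.2] at h2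
      rw [h1] at r1 h2
      have r3 : rk Q σ e.1 = rk Q σ e'.2 := by omega
      have r4 := rk_inj Q σ hσ a1 b2 r3
      rw [h1, r4] at a3
      exact absurd a3 (not_lt.2 b3.le)
    · have c1' : σ e.2 < σ e.1 := lt_of_le_of_ne (not_lt.1 c1) n1.symm
      have c2' : σ e'.2 < σ e'.1 := lt_of_le_of_ne (not_lt.1 c2) n2.symm
      rw [if_neg c1, if_neg c2] at h1
      have r1 := rk_add Q σ _ _ c1'
      have r2 := rk_add Q σ _ _ c2'
      rw [sep_comm Q σ e.1 e.2, sep_comm Q σ e'.1 e'.2] at h2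
      rw [h1] at r1 h2
      have r3 : rk Q σ e.1 = rk Q σ e'.1 := by omega
      exact Prod.ext (rk_inj Q σ hσ a1 b1 r3) h1
  have h1 : ∑ e ∈ E', (r + 1 - sep Q σ e.1 e.2) ≤
      ∑ x ∈ Q ×ˢ Finset.Icc 1 r, (r + 1 - x.2) := by
    have h2 : ∑ x ∈ E'.image (fun e : ι × ι => (lo e, sep Q σ e.1 e.2)), (r + 1 - x.2) =
        ∑ e ∈ E', (r + 1 - sep Q σ e.1 e.2) := by
      rw [Finset.sum_image hinj]
    rw [← h2]
    apply Finset.sum_le_sum_of_subset
    intro x hx
    rw [Finset.mem_image] at hx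
    obtain ⟨e, he, rfl⟩ := hx
    have he1 : e ∈ E := (Finset.mem_filter.1 he).1
    obtain ⟨a1, a2, a3⟩ := hE e he1
    rw [Finset.mem_product, Finset.mem_Icc]
    refine ⟨?_, ?_, (Finset.mem_filter.1 he).2⟩
    · simp only [hlo]; split_ifs <;> assumption
    · rcases lt_or_gt_of_ne (hne e he1) with h | h
      · exact sep_pos Q σ _ _ a2 h
      · rw [sep_comm]; exact sep_pos Q σ _ _ a1 h
  have h3 : 2 * ∑ x ∈ Q ×ˢ Finset.Icc 1 r, (r + 1 - x.2) = Q.card * (r * (r + 1)) := by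
    rw [Finset.sum_product]
    simp only [Finset.sum_const, smul_eq_mul]
    have h4 : ∀ r : ℕ, 2 * ∑ d ∈ Finset.Icc 1 r, (r + 1 - d) = r * (r + 1) := by
      intro r
      have h5 : ∑ d ∈ Finset.Icc 1 r, (r + 1 - d) = ∑ d ∈ Finset.range (r + 1), d := by
        apply Finset.sum_bij_ne_zero (fun d _ _ => r + 1 - d)
        · intro d hd _
          rw [Finset.mem_Icc] at hd
          rw [Finset.mem_range]; omega
        · intro d hd _ d' hd' _ h
          rw [Finset.mem_Icc] at hd hd'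
          omega
        · intro d hd hd0
          rw [Finset.mem_range] at hd
          exact ⟨r + 1 - d, Finset.mem_Icc.2 (by omega), by omega, by omega⟩
        · intro d _ _; rfl
      rw [h5]
      have h6 := Finset.sum_range_id_mul_two (r + 1)
      rw [mul_comm, h6]; simp; ring
    calc 2 * (Q.card * ∑ d ∈ Finset.Icc 1 r, (r + 1 - d))
        = Q.card * (2 * ∑ d ∈ Finset.Icc 1 r, (r + 1 - d)) := by ring
      _ = _ := by rw [h4]
  have h7 : (r + 1) * E.card ≤ ∑ e ∈ E, sep Q σ e.1 e.2 + ∑ e ∈ E', (r + 1 - sep Q σ e.1 e.2) := by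
    rw [hE', Finset.sum_filter, ← Finset.sum_add_distrib, mul_comm, ← smul_eq_mul,
      ← Finset.sum_const]
    apply Finset.sum_le_sum
    intro e _
    split_ifs <;> omega
  calc 2 * (r + 1) * E.card = 2 * ((r + 1) * E.card) := by ring
    _ ≤ 2 * (∑ e ∈ E, sep Q σ e.1 e.2 + ∑ e ∈ E', (r + 1 - sep Q σ e.1 e.2)) :=
        Nat.mul_le_mul_left _ h7
    _ = 2 * ∑ e ∈ E, sep Q σ e.1 e.2 + 2 * ∑ e ∈ E', (r + 1 - sep Q σ e.1 e.2) := by ring
    _ ≤ 2 * ∑ e ∈ E, sep Q σ e.1 e.2 + 2 * ∑ x ∈ Q ×ˢ Finset.Icc 1 r, (r + 1 - x.2) := by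
        have := Nat.mul_le_mul_left 2 h1
        omega
    _ = _ := by rw [h3]

/-- Splitting `n` distinct reals after the first `m`. -/
theorem exists_split {n m : ℕ} (φ : Fin n → ℝ) (hφ : Function.Injective φ) (h0 : 0 < m)
    (hm : m < n) :
    ∃ c : ℝ, (∀ i, φ i ≠ c) ∧ (Finset.univ.filter fun i => φ i < c).card = m ∧
      (Finset.univ.filter fun i => c < φ i).card = n - m := by
  set S : Finset ℝ := Finset.univ.image φ with hS
  have hc : S.card = n := by
    rw [hS, Finset.card_image_of_injective _ hφ, Finset.card_univ, Fintype.card_fin]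
  set g := S.orderEmbOfFin hc with hg
  set c := (g ⟨m - 1, by omega⟩ + g ⟨m, hm⟩) / 2 with hcdef
  have h1 : g ⟨m - 1, by omega⟩ < g ⟨m, hm⟩ := g.strictMono (Fin.mk_lt_mk.2 (by omega))
  have key : ∀ j : Fin n, (g j < c ↔ j.1 < m) ∧ (g j ≠ c) := by
    intro j
    rcases Nat.lt_or_ge j.1 m with h | h
    · have h2 : g j ≤ g ⟨m - 1, by omega⟩ := g.monotone (Fin.mk_le_mk.2 (by omega))
      have h3 : g j < c := by rw [hcdef]; linarith
      exact ⟨⟨fun _ => h, fun _ => h3⟩, h3.ne⟩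
    · have h2 : g ⟨m, hm⟩ ≤ g j := g.monotone (Fin.mk_le_mk.2 h)
      have h3 : c < g j := by rw [hcdef]; linarith
      exact ⟨⟨fun h4 => absurd h4 (not_lt.2 h3.le), fun h4 => absurd h4 (by omega)⟩, h3.ne'⟩
  have hsurj : ∀ i, ∃ j, g j = φ i := by
    intro i
    have h2 : φ i ∈ (S : Set ℝ) := by simp [hS]
    rw [← Finset.range_orderEmbOfFin S hc] at h2
    exact h2
  have hmem : ∀ j, ∃ i, φ i = g j := by
    intro j
    have h2 := Finset.orderEmbOfFin_mem S hc j
    obtain ⟨i, _, hi⟩ := Finset.mem_image.1 h2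
    exact ⟨i, hi⟩
  have hne : ∀ i, φ i ≠ c := by
    intro i
    obtain ⟨j, hj⟩ := hsurj i
    rw [← hj]; exact (key j).2
  have hA : (Finset.univ.filter fun i => φ i < c).card = m := by
    have h2 : (Finset.univ.filter fun i => φ i < c).card =
        (Finset.univ.filter fun j : Fin n => j.1 < m).card := by
      apply Finset.card_bij' (fun i _ => (hsurj i).choose) (fun j _ => (hmem j).choose)
      · intro i hi
        rw [Finset.mem_filter] at hi ⊢
        refine ⟨Finset.mem_univ _, (key _).1.1 ?_⟩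
        rw [(hsurj i).choose_spec]; exact hi.2
      · intro j hj
        rw [Finset.mem_filter] at hj ⊢
        refine ⟨Finset.mem_univ _, ?_⟩
        rw [(hmem j).choose_spec]; exact (key j).1.2 hj.2
      · intro i _
        apply hφ
        rw [(hmem _).choose_spec, (hsurj i).choose_spec]
      · intro j _
        apply g.injective
        rw [(hsurj _).choose_spec, (hmem j).choose_spec]
    rw [h2, Fin.card_filter_val_lt]
    omega
  refine ⟨c, hne, hA, ?_⟩
  have h2 : (Finset.univ.filter fun i => φ i < c).card +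
      (Finset.univ.filter fun i => ¬ φ i < c).card = n := by
    rw [Finset.card_filter_add_card_filter_not, Finset.card_univ, Fintype.card_fin]
  have h3 : (Finset.univ.filter fun i => c < φ i) = Finset.univ.filter fun i => ¬ φ i < c := by
    ext i
    simp only [Finset.mem_filter, Finset.mem_univ, true_and, not_lt]
    exact ⟨fun h => h.le, fun h => lt_of_le_of_ne h (hne i).symm⟩
  rw [h3]; omega

end Pool.Agent.Y78.LX
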