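import Pool.Agent.Y78.LX.Defs
import Pool.Agent.Y78.LX.Rank

/-!
# The upper bound: lines through a point on the left and a point on the right
-/

set_option autoImplicit false

namespace Pool.Agent.Y78.LX

open Finset

theorem aux_div {x y : ℝ} (a b : ℝ) (hx : x ≠ 0) (hy : y ≠ 0) :
    x * y * (a / x - b / y) = y * a - x * b := by
  field_simp

theorem aux_div' {x y : ℝ} (a b : ℝ) (hx : x ≠ 0) (hy : y ≠ 0) :
    x * y * (-(a / x) - -(b / y)) = x * b - y * a := by
  field_simp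
  ring

theorem exists_delta {n : ℕ} (h : Fin n → ℝ) : ∃ δ : ℝ, 0 < δ ∧ ∀ w, 0 < h w → δ < h w := by
  rcases (Finset.univ.filter fun w => 0 < h w).eq_empty_or_nonempty with h0 | h0
  · refine ⟨1, one_pos, fun w hw => ?_⟩
    have : w ∈ Finset.univ.filter fun w => 0 < h w := by simp [hw]
    rw [h0] at this
    exact absurd this (Finset.notMem_empty _)
  · obtain ⟨w, hw, hmin⟩ := Finset.exists_min_image _ h h0
    rw [Finset.mem_filter] at hw
    refine ⟨h w / 2, by linarith [hw.2], fun v hv => ?_⟩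
    have := hmin v (by simp [hv])
    linarith [hw.2]

theorem exists_generic {n : ℕ} (G : GeomGraph n) :
    ∃ ε : ℝ, Function.Injective fun i => (G.pt i).1 + ε * (G.pt i).2 := by
  obtain ⟨ε, hε⟩ := Infinite.exists_notMem_finset ((Finset.univ : Finset (Fin n × Fin n)).image
    fun ij => -((G.pt ij.1).1 - (G.pt ij.2).1) / ((G.pt ij.1).2 - (G.pt ij.2).2))
  refine ⟨ε, fun i j hij => ?_⟩
  simp only at hij
  by_contra hne
  by_cases h : (G.pt i).2 = (G.pt j).2
  · apply hne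
    apply G.inj
    ext
    · rw [h] at hij; linarith
    · exact h
  · apply hε
    rw [Finset.mem_image]
    refine ⟨(i, j), Finset.mem_univ _, ?_⟩
    have h1 : (G.pt i).2 - (G.pt j).2 ≠ 0 := sub_ne_zero.2 h
    rw [div_eq_iff h1]
    linarith

/-- The edges separated by the line through `p` and `q`, moved a little upwards. -/
noncomputable def cutE {n : ℕ} (G : GeomGraph n) (E : Finset (Fin n × Fin n)) (p q : Fin n) :
    Finset (Fin n × Fin n) :=
  E.filter fun e => (0 < det (G.pt p) (G.pt q) (G.pt e.1) ∧ ¬ 0 < det (G.pt p) (G.pt q) (G.pt e.2)) ∨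
    (0 < det (G.pt p) (G.pt q) (G.pt e.2) ∧ ¬ 0 < det (G.pt p) (G.pt q) (G.pt e.1))

theorem cutE_le {n K : ℕ} (G : GeomGraph n) (hK : ∀ L, IsLine L → met G L ≤ K) {p q : Fin n}
    (hpq : p ≠ q) : (cutE G G.edges p q).card ≤ K := by
  obtain ⟨δ, hδ, hmin⟩ := exists_delta fun w => det (G.pt p) (G.pt q) (G.pt w)
  set a := -((G.pt q).2 - (G.pt p).2) with ha
  set b := (G.pt q).1 - (G.pt p).1 with hb
  have hab : a ≠ 0 ∨ b ≠ 0 := by
    by_contra hcon
    push Not at hcon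
    apply hpq
    apply G.inj
    ext <;> linarith [hcon.1, hcon.2]
  have hdet : ∀ w, a * (G.pt w).1 + b * (G.pt w).2 =
      det (G.pt p) (G.pt q) (G.pt w) + (a * (G.pt p).1 + b * (G.pt p).2) := by
    intro w; unfold det; rw [ha, hb]; ring
  refine le_trans (card_le_met G a b (δ + (a * (G.pt p).1 + b * (G.pt p).2)) _
    (Finset.filter_subset _ _) ?_) (hK _ ⟨a, b, _, hab, rfl⟩)
  intro e he
  obtain ⟨-, h⟩ := Finset.mem_filter.1 he
  rw [hdet e.1, hdet e.2]
  rcases h with ⟨h1, h2⟩ | ⟨h1, h2⟩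
  · right
    exact ⟨by linarith, by linarith [hmin _ h1]⟩
  · left
    exact ⟨by linarith, by linarith [hmin _ h1]⟩

/-- Edges on the left. -/
theorem sum_left {n : ℕ} (G : GeomGraph n) (ε : ℝ) (A : Finset (Fin n)) (q : Fin n)
    (E : Finset (Fin n × Fin n)) (hE : ∀ e ∈ E, e.1 ∈ A ∧ e.2 ∈ A ∧ e.1 < e.2)
    (hA : ∀ p ∈ A, (G.pt p).1 + ε * (G.pt p).2 < (G.pt q).1 + ε * (G.pt q).2) (r : ℕ) :
    2 * (r + 1) * E.card ≤ 2 * ∑ p ∈ A, (cutE G E p q).card + A.card * (r * (r + 1)) := by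
  set σ : Fin n → ℝ := fun w => ((G.pt w).2 - (G.pt q).2) /
    (((G.pt w).1 + ε * (G.pt w).2) - ((G.pt q).1 + ε * (G.pt q).2)) with hσ
  have hdet : ∀ p ∈ A, ∀ u ∈ A, det (G.pt p) (G.pt q) (G.pt u) =
      ((((G.pt p).1 + ε * (G.pt p).2) - ((G.pt q).1 + ε * (G.pt q).2)) *
      (((G.pt u).1 + ε * (G.pt u).2) - ((G.pt q).1 + ε * (G.pt q).2))) * (σ p - σ u) := by
    intro p hp u hu
    have h1 : ((G.pt p).1 + ε * (G.pt p).2) - ((G.pt q).1 + ε * (G.pt q).2) ≠ 0 :=
      (sub_neg.2 (hA p hp)).ne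
    have h2 : ((G.pt u).1 + ε * (G.pt u).2) - ((G.pt q).1 + ε * (G.pt q).2) ≠ 0 :=
      (sub_neg.2 (hA u hu)).ne
    simp only [hσ]
    rw [aux_div _ _ h1 h2]
    unfold det
    ring
  have hpos : ∀ p ∈ A, ∀ u ∈ A, (0 < det (G.pt p) (G.pt q) (G.pt u) ↔ σ u < σ p) := by
    intro p hp u hu
    have h1 : ((G.pt p).1 + ε * (G.pt p).2) - ((G.pt q).1 + ε * (G.pt q).2) < 0 := by
      linarith [hA p hp]
    have h2 : ((G.pt u).1 + ε * (G.pt u).2) - ((G.pt q).1 + ε * (G.pt q).2) < 0 := by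
      linarith [hA u hu]
    rw [hdet p hp u hu, mul_pos_iff_of_pos_left (mul_pos_of_neg_of_neg h1 h2), sub_pos]
  have hinj : Set.InjOn σ A := by
    intro u hu v hv huv
    by_contra hne
    have h1 : det (G.pt u) (G.pt q) (G.pt v) = 0 := by
      rw [hdet u hu v hv, huv, sub_self, mul_zero]
    have huq : u ≠ q := by
      rintro rfl; exact lt_irrefl _ (hA u hu)
    have hvq : v ≠ q := by
      rintro rfl; exact lt_irrefl _ (hA v hv)
    exact G.noThree u q v huq hvq.symm hne (collinear_of_det (fun h => huq (G.inj h)) h1)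
  have h := rank_sum A σ hinj E hE r
  have h1 : ∑ p ∈ A, (cutE G E p q).card = ∑ e ∈ E, sep A σ e.1 e.2 := by
    unfold cutE sep
    have h2 := Finset.sum_card_bipartiteAbove_eq_sum_card_bipartiteBelow (s := A) (t := E)
      (fun p e => (0 < det (G.pt p) (G.pt q) (G.pt e.1) ∧ ¬ 0 < det (G.pt p) (G.pt q) (G.pt e.2)) ∨
        (0 < det (G.pt p) (G.pt q) (G.pt e.2) ∧ ¬ 0 < det (G.pt p) (G.pt q) (G.pt e.1)))
    simp only [Finset.bipartiteAbove, Finset.bipartiteBelow] at h2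
    rw [h2]
    apply Finset.sum_congr rfl
    intro e he
    obtain ⟨h3, h4, -⟩ := hE e he
    congr 1
    apply Finset.filter_congr
    intro p hp
    rw [hpos p hp _ h3, hpos p hp _ h4, not_lt, not_lt]
  rw [h1]; exact h

/-- Edges on the right. -/
theorem sum_right {n : ℕ} (G : GeomGraph n) (ε : ℝ) (B : Finset (Fin n)) (p : Fin n)
    (E : Finset (Fin n × Fin n)) (hE : ∀ e ∈ E, e.1 ∈ B ∧ e.2 ∈ B ∧ e.1 < e.2)
    (hB : ∀ q ∈ B, (G.pt p).1 + ε * (G.pt p).2 < (G.pt q).1 + ε * (G.pt q).2) (r : ℕ) :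
    2 * (r + 1) * E.card ≤ 2 * ∑ q ∈ B, (cutE G E p q).card + B.card * (r * (r + 1)) := by
  set σ : Fin n → ℝ := fun w => -(((G.pt w).2 - (G.pt p).2) /
    (((G.pt w).1 + ε * (G.pt w).2) - ((G.pt p).1 + ε * (G.pt p).2))) with hσ
  have hdet : ∀ q ∈ B, ∀ u ∈ B, det (G.pt p) (G.pt q) (G.pt u) =
      ((((G.pt q).1 + ε * (G.pt q).2) - ((G.pt p).1 + ε * (G.pt p).2)) *
      (((G.pt u).1 + ε * (G.pt u).2) - ((G.pt p).1 + ε * (G.pt p).2))) * (σ q - σ u) := by
    intro q hq u hu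
    have h1 : ((G.pt q).1 + ε * (G.pt q).2) - ((G.pt p).1 + ε * (G.pt p).2) ≠ 0 :=
      (sub_pos.2 (hB q hq)).ne'
    have h2 : ((G.pt u).1 + ε * (G.pt u).2) - ((G.pt p).1 + ε * (G.pt p).2) ≠ 0 :=
      (sub_pos.2 (hB u hu)).ne'
    simp only [hσ]
    rw [aux_div' _ _ h1 h2]
    unfold det
    ring
  have hpos : ∀ q ∈ B, ∀ u ∈ B, (0 < det (G.pt p) (G.pt q) (G.pt u) ↔ σ u < σ q) := by
    intro q hq u hu
    have h1 : 0 < ((G.pt q).1 + ε * (G.pt q).2) - ((G.pt p).1 + ε * (G.pt p).2) := by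
      linarith [hB q hq]
    have h2 : 0 < ((G.pt u).1 + ε * (G.pt u).2) - ((G.pt p).1 + ε * (G.pt p).2) := by
      linarith [hB u hu]
    rw [hdet q hq u hu, mul_pos_iff_of_pos_left (mul_pos h1 h2), sub_pos]
  have hinj : Set.InjOn σ B := by
    intro u hu v hv huv
    by_contra hne
    have h1 : det (G.pt p) (G.pt u) (G.pt v) = 0 := by
      rw [hdet u hu v hv, huv, sub_self, mul_zero]
    have hup : p ≠ u := by
      rintro rfl; exact lt_irrefl _ (hB p hu)
    have hvp : p ≠ v := by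
      rintro rfl; exact lt_irrefl _ (hB p hv)
    exact G.noThree p u v hup hne hvp (collinear_of_det (fun h => hup (G.inj h)) h1)
  have h := rank_sum B σ hinj E hE r
  have h1 : ∑ q ∈ B, (cutE G E p q).card = ∑ e ∈ E, sep B σ e.1 e.2 := by
    unfold cutE sep
    have h2 := Finset.sum_card_bipartiteAbove_eq_sum_card_bipartiteBelow (s := B) (t := E)
      (fun q e => (0 < det (G.pt p) (G.pt q) (G.pt e.1) ∧ ¬ 0 < det (G.pt p) (G.pt q) (G.pt e.2)) ∨
        (0 < det (G.pt p) (G.pt q) (G.pt e.2) ∧ ¬ 0 < det (G.pt p) (G.pt q) (G.pt e.1)))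
    simp only [Finset.bipartiteAbove, Finset.bipartiteBelow] at h2
    rw [h2]
    apply Finset.sum_congr rfl
    intro e he
    obtain ⟨h3, h4, -⟩ := hE e he
    congr 1
    apply Finset.filter_congr
    intro q hq
    rw [hpos q hq _ h3, hpos q hq _ h4, not_lt, not_lt]
  rw [h1]; exact h

/-- If every line meets at most `K` edges then there are few edges. -/
theorem upper {n K : ℕ} (r : ℕ) (hn : 2 ≤ n) (G : GeomGraph n)
    (hK : ∀ L, IsLine L → met G L ≤ K) :
    2 * (r + 1) * G.edges.card ≤ 2 * (r + 1) * K + (n + 1) * (K + r * (r + 1)) := by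
  obtain ⟨ε, hε⟩ := exists_generic G
  set φ : Fin n → ℝ := fun i => (G.pt i).1 + ε * (G.pt i).2 with hφ
  obtain ⟨c, hc, hA, hB⟩ := exists_split φ hε (m := n / 2) (by omega) (by omega)
  set A := Finset.univ.filter fun i => φ i < c with hAdef
  set B := Finset.univ.filter fun i => c < φ i with hBdef
  have hAB : ∀ p ∈ A, ∀ q ∈ B, φ p < φ q := by
    intro p hp q hq
    exact (Finset.mem_filter.1 hp).2.trans (Finset.mem_filter.1 hq).2
  set E₁ := G.edges.filter fun e => φ e.1 < c ∧ φ e.2 < c with hE1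
  set E₂ := G.edges.filter fun e => c < φ e.1 ∧ c < φ e.2 with hE2
  set X := G.edges.filter fun e => (φ e.1 < c ∧ c < φ e.2) ∨ (φ e.2 < c ∧ c < φ e.1) with hX
  have hsplit : G.edges.card ≤ E₁.card + E₂.card + X.card := by
    have h1 : G.edges ⊆ (E₁ ∪ E₂) ∪ X := by
      intro e he
      simp only [Finset.mem_union, hE1, hE2, hX, Finset.mem_filter]
      rcases lt_or_gt_of_ne (hc e.1) with h | h <;> rcases lt_or_gt_of_ne (hc e.2) with h' | h'
      · exact Or.inl (Or.inl ⟨he, h, h'⟩)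
      · exact Or.inr ⟨he, Or.inl ⟨h, h'⟩⟩
      · exact Or.inr ⟨he, Or.inr ⟨h', h⟩⟩
      · exact Or.inl (Or.inr ⟨he, h, h'⟩)
    exact (Finset.card_le_card h1).trans ((Finset.card_union_le _ _).trans
      (Nat.add_le_add_right (Finset.card_union_le _ _) _))
  have hXK : X.card ≤ K := by
    refine le_trans (card_le_met G 1 ε c X (Finset.filter_subset _ _) ?_)
      (hK _ ⟨1, ε, c, Or.inl one_ne_zero, rfl⟩)
    intro e he
    have h1 := (Finset.mem_filter.1 he).2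
    simp only [hφ] at h1
    simp only [one_mul]
    exact h1
  have hE1' : ∀ e ∈ E₁, e.1 ∈ A ∧ e.2 ∈ A ∧ e.1 < e.2 := by
    intro e he
    obtain ⟨h1, h2, h3⟩ := Finset.mem_filter.1 he
    exact ⟨by simp [hAdef, h2], by simp [hAdef, h3], G.lt e h1⟩
  have hE2' : ∀ e ∈ E₂, e.1 ∈ B ∧ e.2 ∈ B ∧ e.1 < e.2 := by
    intro e he
    obtain ⟨h1, h2, h3⟩ := Finset.mem_filter.1 he
    exact ⟨by simp [hBdef, h2], by simp [hBdef, h3], G.lt e h1⟩
  have hdisj : Disjoint E₁ E₂ := by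
    rw [Finset.disjoint_left]
    intro e h1 h2
    exact lt_asymm (Finset.mem_filter.1 h1).2.1 (Finset.mem_filter.1 h2).2.1
  -- each pair `p, q`
  have hcut : ∀ p ∈ A, ∀ q ∈ B, (cutE G E₁ p q).card + (cutE G E₂ p q).card ≤ K := by
    intro p hp q hq
    have hpq : p ≠ q := by
      rintro rfl; exact lt_irrefl _ (hAB p hp p hq)
    refine le_trans ?_ (cutE_le G hK hpq)
    unfold cutE
    rw [← Finset.card_union_of_disjoint (Finset.disjoint_filter_filter hdisj),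
      ← Finset.filter_union]
    apply Finset.card_le_card
    apply Finset.filter_subset_filter
    exact Finset.union_subset (Finset.filter_subset _ _) (Finset.filter_subset _ _)
  have hsum : ∑ p ∈ A, ∑ q ∈ B, ((cutE G E₁ p q).card + (cutE G E₂ p q).card) ≤
      A.card * (B.card * K) := by
    calc ∑ p ∈ A, ∑ q ∈ B, ((cutE G E₁ p q).card + (cutE G E₂ p q).card)
        ≤ ∑ p ∈ A, ∑ q ∈ B, K :=
          Finset.sum_le_sum fun p hp => Finset.sum_le_sum fun q hq => hcut p hp q hq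
      _ = A.card * (B.card * K) := by simp
  have hl : B.card * (2 * (r + 1) * E₁.card) ≤ 2 * ∑ p ∈ A, ∑ q ∈ B, (cutE G E₁ p q).card +
      B.card * (A.card * (r * (r + 1))) := by
    rw [Finset.sum_comm, Finset.mul_sum]
    calc B.card * (2 * (r + 1) * E₁.card) = ∑ q ∈ B, 2 * (r + 1) * E₁.card := by simp
      _ ≤ ∑ q ∈ B, (2 * ∑ p ∈ A, (cutE G E₁ p q).card + A.card * (r * (r + 1))) :=
          Finset.sum_le_sum fun q hq => sum_left G ε A q E₁ hE1' (fun p hp => hAB p hp q hq) r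
      _ = _ := by rw [Finset.sum_add_distrib]; simp
  have hr : A.card * (2 * (r + 1) * E₂.card) ≤ 2 * ∑ p ∈ A, ∑ q ∈ B, (cutE G E₂ p q).card +
      A.card * (B.card * (r * (r + 1))) := by
    rw [Finset.mul_sum]
    calc A.card * (2 * (r + 1) * E₂.card) = ∑ p ∈ A, 2 * (r + 1) * E₂.card := by simp
      _ ≤ ∑ p ∈ A, (2 * ∑ q ∈ B, (cutE G E₂ p q).card + B.card * (r * (r + 1))) :=
          Finset.sum_le_sum fun p hp => sum_right G ε B p E₂ hE2' (fun q hq => hAB p hp q hq) r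
      _ = _ := by rw [Finset.sum_add_distrib]; simp
  have hadd : ∑ p ∈ A, ∑ q ∈ B, ((cutE G E₁ p q).card + (cutE G E₂ p q).card) =
      ∑ p ∈ A, ∑ q ∈ B, (cutE G E₁ p q).card + ∑ p ∈ A, ∑ q ∈ B, (cutE G E₂ p q).card := by
    rw [← Finset.sum_add_distrib]
    exact Finset.sum_congr rfl fun p _ => Finset.sum_add_distrib
  rw [hadd] at hsum
  rw [hA] at hsum hl hr
  rw [hB] at hsum hl hr
  set m := n / 2 with hm
  set M := n - m with hM
  set s₁ := ∑ p ∈ A, ∑ q ∈ B, (cutE G E₁ p q).card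
  set s₂ := ∑ p ∈ A, ∑ q ∈ B, (cutE G E₂ p q).card
  have hm0 : 0 < m := by omega
  have hmM : m ≤ M := by omega
  have hM2 : 2 * M ≤ n + 1 := by omega
  -- `(r + 1) m (E₁ + E₂) ≤ m M (K + r (r + 1))`
  have h1 : m * (2 * (r + 1) * (E₁.card + E₂.card)) ≤ m * (2 * M * (K + r * (r + 1))) := by
    calc m * (2 * (r + 1) * (E₁.card + E₂.card))
        = m * (2 * (r + 1) * E₁.card) + m * (2 * (r + 1) * E₂.card) := by ring
      _ ≤ M * (2 * (r + 1) * E₁.card) + m * (2 * (r + 1) * E₂.card) :=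
          Nat.add_le_add_right (Nat.mul_le_mul_right _ hmM) _
      _ ≤ (2 * s₁ + M * (m * (r * (r + 1)))) + (2 * s₂ + m * (M * (r * (r + 1)))) :=
          Nat.add_le_add hl hr
      _ = 2 * (s₁ + s₂) + m * (2 * M * (r * (r + 1))) := by ring
      _ ≤ 2 * (m * (M * K)) + m * (2 * M * (r * (r + 1))) := by
          have := Nat.mul_le_mul_left 2 hsum
          omega
      _ = _ := by ring
  have h2 : 2 * (r + 1) * (E₁.card + E₂.card) ≤ 2 * M * (K + r * (r + 1)) :=
    Nat.le_of_mul_le_mul_left h1 hm0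
  calc 2 * (r + 1) * G.edges.card ≤ 2 * (r + 1) * (E₁.card + E₂.card + X.card) :=
        Nat.mul_le_mul_left _ hsplit
    _ = 2 * (r + 1) * X.card + 2 * (r + 1) * (E₁.card + E₂.card) := by ring
    _ ≤ 2 * (r + 1) * K + 2 * M * (K + r * (r + 1)) :=
        Nat.add_le_add (Nat.mul_le_mul_left _ hXK) h2
    _ ≤ 2 * (r + 1) * K + (n + 1) * (K + r * (r + 1)) :=
        Nat.add_le_add_left (Nat.mul_le_mul_right _ hM2) _

end Pool.Agent.Y78.LX
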